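import Mathlib
import Pool.Agent.Lib.helper4.Ramsey

set_option autoImplicit false

namespace Pool.Agent.Results.MP_a46e5c_co.Finite

open Finset

/-- The exponential lattice `L_d(α)`. -/
def L (d : ℕ) (α : ℝ) : Set (Fin d → ℝ) := {x | ∀ k, ∃ n : ℕ, x k = α ^ n}

theorem solve (n : ℕ) (ε : ℝ) (E : Fin n → Fin n → ℝ) (hE : ∀ s t, |E s t| ≤ ε) (h : n * ε < 1 / 2) :
    ∃ μ : Fin n → ℝ, ∀ s, 0 < μ s ∧ μ s + ∑ t, E s t * μ t = 1 := by
  have b : ∀ (μ : Fin n → ℝ) s, |∑ t, E s t * μ t| ≤ n * ε * ‖μ‖ := fun μ s => by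
    refine (abs_sum_le_sum_abs _ _).trans ((sum_le_card_nsmul _ _ (ε * ‖μ‖) fun t _ => ?_).trans ?_)
    · rw [abs_mul]
      exact mul_le_mul (hE s t) (norm_le_pi_norm μ t) (abs_nonneg _) ((abs_nonneg _).trans (hE s t))
    · simp [mul_assoc]
  have c : ∀ (μ : Fin n → ℝ) (a : ℝ), 0 ≤ a → (∀ s, μ s + ∑ t, E s t * μ t = a) → ‖μ‖ ≤ 2 * a := by
    intro μ a ha hμ
    have n0 := norm_nonneg μ
    have : ‖μ‖ ≤ a + ‖μ‖ / 2 := (pi_norm_le_iff_of_nonneg (by positivity)).2 fun s => by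
      have := abs_le.1 (b μ s)
      have := hμ s
      rw [Real.norm_eq_abs, abs_le]
      constructor <;> nlinarith
    linarith
  have inj : Function.Injective (LinearMap.id + Matrix.toLin' (Matrix.of E) : (Fin n → ℝ) →ₗ[ℝ] _) :=
    (injective_iff_map_eq_zero _).2 fun μ hμ => norm_le_zero_iff.1 (by
      simpa using c μ 0 le_rfl fun s => congrFun hμ s)
  obtain ⟨μ, hμ⟩ := LinearMap.injective_iff_surjective.1 inj fun _ => 1
  have e : ∀ s, μ s + ∑ t, E s t * μ t = 1 := fun s => congrFun hμ s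
  refine ⟨μ, fun s => ⟨?_, e s⟩⟩
  have := c μ 1 zero_le_one e
  have := abs_le.1 (b μ s)
  have := e s
  have := norm_nonneg μ
  by_cases z : 0 ≤ n * ε <;> nlinarith

theorem peak (u : ℕ → ℤ) (s n : ℕ) (M : ℤ) (hM : 0 ≤ M) (h1 : ∀ t < n, s ≤ t → u (t + 1) + M ≤ u t)
    (h2 : ∀ t < s, u t + M ≤ u (t + 1)) : ∀ t ≤ n, t ≠ s → u t + M ≤ u s := by
  have a : ∀ i, s + i + 1 ≤ n → u (s + i + 1) + M ≤ u s := fun i => by
    induction i with
    | zero => exact fun h => h1 s h le_rfl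
    | succ i ih =>
      intro h
      have := h1 (s + i + 1) h (by omega)
      have := ih (by omega)
      rw [← add_assoc]; omega
  have b : ∀ i t, t + i + 1 = s → u t + M ≤ u s := fun i => by
    induction i with
    | zero => exact fun t h => h ▸ h2 t (by omega)
    | succ i ih =>
      intro t h
      have := h2 t (by omega)
      have := ih (t + 1) (by omega)
      omega
  intro t ht hs
  rcases lt_or_gt_of_ne hs with h | h
  · exact b (s - t - 1) t (by omega)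
  · simpa [show s + (t - s - 1) + 1 = t by omega] using a (t - s - 1) (by omega)

theorem trop (d : ℕ) (α : ℝ) (hα : 1 < α) (M : ℕ) (hM : 2 * (d + 1) < α ^ M)
    (v : ℕ → Option (Fin d) → ℤ) (v0 : ∀ t, v t none = 0)
    (H0 : ∀ k l, v 1 k - v 0 k = v 1 l - v 0 l → ∀ s t, s < t → t ≤ d → v t k - v s k = v t l - v s l)
    (H1 : ∀ k l, v 1 k - v 0 k < v 1 l - v 0 l → ∀ t < d, v (t + 1) k - v t k + 2 * M ≤ v (t + 1) l - v t l) :
    ∃ θ : Fin (d + 1) → ℝ, (∀ t, 0 < θ t) ∧ ∑ t, θ t = 1 ∧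
      ∀ k, ∃ n : ℤ, ∑ t, θ t * α ^ v t (some k) = α ^ n := by
  obtain ⟨ρ, hρ⟩ : ∃ ρ : Option (Fin d) → ℕ, ∀ k, ρ k = #{j | v 1 j - v 0 j < v 1 k - v 0 k} :=
    ⟨_, fun _ => rfl⟩
  have r1 : ∀ k l, v 1 k - v 0 k < v 1 l - v 0 l → ρ k < ρ l := fun k l h => by
    rw [hρ, hρ]
    refine card_lt_card ⟨fun j hj => ?_, fun z => by simpa using z (show k ∈ _ by simpa using h)⟩
    simp only [mem_filter, mem_univ, true_and] at hj ⊢
    omega
  have r2 : ∀ k l, v 1 k - v 0 k = v 1 l - v 0 l → ρ k = ρ l := fun k l h => by rw [hρ, hρ, h]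
  have r3 : ∀ k, ρ k < d + 1 := fun k => by
    have : ρ k < #(univ : Finset (Option (Fin d))) :=
      hρ k ▸ card_lt_card ⟨subset_univ _, fun z => by simpa using z (mem_univ k)⟩
    simpa using this
  have : ∀ t, ∃ m : ℤ, (∀ k, ρ k ≤ t → v (t + 1) k - v t k ≤ m) ∧
      ∀ k, t < d → t < ρ k → m + 2 * M ≤ v (t + 1) k - v t k := fun t => by
    obtain ⟨j0, -, h0⟩ := exists_min_image univ (fun j => v 1 j - v 0 j) ⟨none, mem_univ _⟩
    obtain ⟨j, hj, h⟩ := exists_max_image {j | ρ j ≤ t} (fun j => v (t + 1) j - v t j) ⟨j0, by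
      have : ρ j0 = 0 := by
        rw [hρ, card_eq_zero, filter_eq_empty_iff]
        exact fun j _ => not_lt.2 (h0 j (mem_univ _))
      simp [this]⟩
    refine ⟨_, fun k hk => h k (by simpa using hk), fun k ht hk => H1 j k ?_ t ht⟩
    have := r1 k j; have := r2 k j
    simp at hj; omega
  choose m m1 m2 using this
  obtain ⟨u, hu⟩ : ∃ u : ℕ → Option (Fin d) → ℤ, ∀ t k, u t k = v t k - ∑ i ∈ range t, (m i + M) :=
    ⟨_, fun _ _ => rfl⟩
  have pk : ∀ k, ∀ t ≤ d, t ≠ ρ k → u t k + M ≤ u (ρ k) k := fun k =>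
    peak (u · k) (ρ k) d M (by positivity)
      (fun t _ h => by have := m1 t k h; simp only [hu, sum_range_succ]; omega)
      (fun t h => by have := m2 t k (by have := r3 k; omega) h; simp only [hu, sum_range_succ]; omega)
  have tie : ∀ k l, ρ k = ρ l → ∀ t ≤ d, u t k - u (ρ k) k = u t l - u (ρ l) l := fun k l h t ht => by
    have e : v 1 k - v 0 k = v 1 l - v 0 l := by have := r1 k l; have := r1 l k; omega
    have := H0 k l e t (ρ k); have := H0 k l e (ρ k) t; have := r3 k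
    simp only [hu, ← h]
    rcases lt_trichotomy t (ρ k) with c | c | c
    · omega
    · rw [c]; omega
    · omega
  have a0 : 0 < α := by linarith
  obtain ⟨μ, hμ⟩ := solve (d + 1) (α ^ (-M : ℤ)) (fun s t => if h : ∃ k, ρ k = s then
      (if t = s then 0 else α ^ (u t h.choose - u (ρ h.choose) h.choose)) else 0) (fun s t => by
      split_ifs with h c
      · simp; positivity
      · rw [abs_of_pos (by positivity)]
        have := pk h.choose t (by omega) (by rw [h.choose_spec]; exact fun z => c (Fin.ext z))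
        exact zpow_le_zpow_right₀ hα.le (by omega)
      · simp; positivity) (by
      rw [zpow_neg, zpow_natCast, ← div_eq_mul_inv, div_lt_iff₀ (by positivity)]; push_cast; linarith)
  have one : ∀ k, ∑ t, μ t * α ^ (u t k - u (ρ k) k) = 1 := fun k => by
    have h : ∃ l, ρ l = (⟨ρ k, r3 k⟩ : Fin (d + 1)) := ⟨k, rfl⟩
    have e := (hμ ⟨ρ k, r3 k⟩).2
    simp only [dif_pos h] at e
    rw [← e, ← add_sum_erase _ _ (mem_univ ⟨ρ k, r3 k⟩), ← add_sum_erase _ _ (mem_univ ⟨ρ k, r3 k⟩)]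
    simp only [sub_self, zpow_zero, mul_one, if_true, zero_mul, zero_add, add_right_inj]
    refine sum_congr rfl fun t ht => ?_
    rw [if_neg (ne_of_mem_erase ht), tie h.choose k h.choose_spec t (by omega), mul_comm]
  refine ⟨fun t => μ t * α ^ (u t none - u (ρ none) none), fun t => ?_, one none,
    fun k => ⟨u (ρ (some k)) (some k) - u (ρ none) none, ?_⟩⟩
  · have := (hμ t).1; positivity
  · rw [← one_mul (α ^ (_ - u (ρ none) none)), ← one (some k), sum_mul]
    refine sum_congr rfl fun t _ => ?_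
    rw [mul_assoc, mul_assoc, ← zpow_add₀ a0.ne', ← zpow_add₀ a0.ne', hu t none, hu t (some k), v0]
    congr 2; ring

theorem core (d : ℕ) (α : ℝ) (hα : 1 < α) : ∃ N, ∀ T : Finset (Fin d → ℝ), ↑T ⊆ L d α → N ≤ #T →
    ∃ z ∈ L d α, z ∈ convexHull ℝ ((T : Set (Fin d → ℝ)) \ {z}) := by
  classical
  obtain ⟨M, hM⟩ := pow_unbounded_of_one_lt (2 * (d + 1) : ℝ) hα
  obtain ⟨N, hN⟩ := Pool.Agent.Lib.helper4.Ramsey.ram (Option (Fin d) → Option (Fin d) →
    (Icc (-(2 * M + 1) : ℤ) (2 * M + 1) : Finset ℤ)) 2 (d + 3)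
  refine ⟨N, fun T hT hc => ?_⟩
  obtain ⟨p, hp⟩ : ∃ p : Fin #T → Fin d → ℝ, p = fun i => ↑(T.equivFin.symm i) := ⟨_, rfl⟩
  have p1 : ∀ i, p i ∈ T := fun i => hp ▸ (T.equivFin.symm i).2
  have p2 : Function.Injective p := hp ▸ Subtype.val_injective.comp T.equivFin.symm.injective
  choose e he using fun i => hT (p1 i)
  obtain ⟨w, hw0, hw⟩ : ∃ w : Fin #T → Option (Fin d) → ℤ, (∀ i, w i none = 0) ∧
      ∀ i k, w i (some k) = e i k := ⟨fun i o => o.elim 0 fun k => e i k, by simp, by simp⟩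
  obtain ⟨Y, -, hY, h⟩ := hN (Fin #T) univ (by simpa using hc) fun a k l =>
    ⟨max (-(2 * M + 1)) (min (2 * M + 1) (w (a 1) l - w (a 0) l - (w (a 1) k - w (a 0) k))),
      mem_Icc.2 (by omega)⟩
  obtain ⟨y, hy⟩ : ∃ y : ℕ → Fin #T, ∀ i (h : i < d + 3), y i = Y.orderEmbOfFin hY ⟨i, h⟩ :=
    ⟨fun i => Y.orderEmbOfFin hY (Fin.ofNat _ i), fun i h =>
      congrArg _ (Fin.ext (Nat.mod_eq_of_lt h))⟩
  have y1 : ∀ s t, s < t → t < d + 3 → y s < y t := fun s t a b => by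
    rw [hy s (by omega), hy t b]; exact (Y.orderEmbOfFin hY).strictMono a
  have y2 : ∀ s, s < d + 3 → y s ∈ Y := fun s a => hy s a ▸ Y.orderEmbOfFin_mem hY _
  have H : ∀ s t, s < t → t < d + 3 → ∀ k l, max (-(2 * M + 1) : ℤ) (min (2 * M + 1)
      (w (y t) l - w (y s) l - (w (y t) k - w (y s) k))) = max (-(2 * M + 1) : ℤ) (min (2 * M + 1)
      (w (y 1) l - w (y 0) l - (w (y 1) k - w (y 0) k))) := fun s t a b k l => by
    have := h ![y s, y t] ![y 0, y 1] (by simpa [Fin.strictMono_iff_lt_succ] using y1 s t a b)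
      (by simpa [Fin.strictMono_iff_lt_succ] using y1 0 1 one_pos (by omega))
      (by simp [Fin.forall_fin_two, y2 s (by omega), y2 t b])
      (by simp [Fin.forall_fin_two, y2 0 (by omega), y2 1 (by omega)])
    exact congrArg Subtype.val (congrFun (congrFun this k) l)
  obtain ⟨θ, t1, t2, t3⟩ := trop d α hα M hM (fun t => w (y t)) (fun t => hw0 _)
    (fun k l a s t b c => by have := H s t b (by omega) k l; omega)
    (fun k l a t b => by
      have := H t (t + 1) (by omega) (by omega) k l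
      have := H 1 2 (by omega) (by omega) k l
      have := H 0 2 (by omega) (by omega) k l
      omega)
  obtain ⟨z, hz⟩ : ∃ z, z = ∑ t, θ t • p (y t) := ⟨_, rfl⟩
  refine ⟨z, fun k => ?_, ?_⟩
  · obtain ⟨n, hn⟩ := t3 k
    have a : z k = α ^ n := by simp [hz, ← hn, he, hw]
    have b : 1 ≤ z k := by
      rw [← t2, hz, Finset.sum_apply]
      exact sum_le_sum fun t _ => by
        simpa [he] using le_mul_of_one_le_right (t1 t).le (one_le_pow₀ hα.le)
    rw [a, one_le_zpow_iff_right₀ hα] at b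
    obtain ⟨m, rfl⟩ := Int.eq_ofNat_of_zero_le b
    exact ⟨m, by simpa using a⟩
  · rcases Nat.eq_zero_or_pos d with rfl | hd
    · exact absurd (p2 (Subsingleton.elim _ _)) (y1 0 1 one_pos (by omega)).ne
    have ne : (univ.filter fun t : Fin (d + 1) => p (y t) ≠ z).Nonempty := by
      by_contra c
      simp only [not_nonempty_iff_eq_empty, filter_eq_empty_iff, mem_univ, true_implies, not_not] at c
      exact (y1 0 1 one_pos (by omega)).ne (p2 ((@c ⟨0, by omega⟩).trans (@c ⟨1, by omega⟩).symm))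
    have pos := sum_pos (fun t _ => t1 t) ne
    have := centerMass_mem_convexHull (s := (T : Set (Fin d → ℝ)) \ {z}) _ (fun t _ => (t1 t).le) pos
      (z := fun t : Fin (d + 1) => p (y t)) fun t ht => ⟨p1 _, (mem_filter.1 ht).2⟩
    convert this
    have e1 := sum_filter_add_sum_filter_not univ (fun t : Fin (d + 1) => p (y t) ≠ z) θ
    have e2 := sum_filter_add_sum_filter_not univ (fun t : Fin (d + 1) => p (y t) ≠ z)
      fun t => θ t • p (y t)
    have e3 : ∑ t ∈ univ.filter fun t : Fin (d + 1) => ¬ p (y t) ≠ z, θ t • p (y t) =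
        ∑ t ∈ univ.filter fun t : Fin (d + 1) => ¬ p (y t) ≠ z, θ t • z :=
      sum_congr rfl fun t ht => by rw [not_not.1 (mem_filter.1 ht).2]
    rw [e3, ← sum_smul] at e2
    rw [centerMass, eq_inv_smul_iff₀ pos.ne', eq_sub_of_add_eq e2, eq_sub_of_add_eq (e1.trans t2),
      sub_smul, one_smul, ← hz]

theorem ext {d : ℕ} (Y : Finset (Fin d → ℝ)) (j : Fin d → ℝ) (B : Set (Fin d → ℝ))
    (hj : j ∉ convexHull ℝ ((Y : Set (Fin d → ℝ)) \ {j})) (hB : B ⊆ convexHull ℝ ↑Y) (h : j ∉ B) :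
    j ∉ convexHull ℝ B := by
  obtain ⟨f, u, h1, h2⟩ := geometric_hahn_banach_closed_point (convex_convexHull ℝ _)
    ((Y.finite_toSet.subset Set.sdiff_subset).isClosed_convexHull ℝ) hj
  have a : convexHull ℝ ↑Y ⊆ {p | f p < f j ∨ p = j} := by
    refine convexHull_min (fun p hp => or_iff_not_imp_right.2 fun c =>
      (h1 p (subset_convexHull ℝ _ ⟨hp, c⟩)).trans h2) fun p hp q hq a b ha hb hab => ?_
    have c1 : f p ≤ f j := by rcases hp with z | z <;> simp [z, le_of_lt]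
    have c2 : f q ≤ f j := by rcases hq with z | z <;> simp [z, le_of_lt]
    have c3 : f j = a * f j + b * f j := by rw [← add_mul, hab, one_mul]
    rcases ha.eq_or_lt with rfl | ha'
    · simpa [show b = 1 by linarith] using hq
    rcases hb.eq_or_lt with rfl | hb'
    · simpa [show a = 1 by linarith] using hp
    rcases hp with z | z
    · left; simp only [map_add, map_smul, smul_eq_mul]; nlinarith
    rcases hq with z' | z'
    · left; simp only [map_add, map_smul, smul_eq_mul]; nlinarith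
    · right; rw [z, z', ← add_smul, hab, one_smul]
  intro c
  exact lt_irrefl (f j) (convexHull_min (t := {p | f p < f j})
    (fun p hp => (a (hB hp)).resolve_right fun z => h (z ▸ hp))
    (convex_halfSpace_lt (f : (Fin d → ℝ) →ₗ[ℝ] ℝ).isLinear _) c)

theorem fin (d : ℕ) (α : ℝ) (hα : 1 < α) (Y : Finset (Fin d → ℝ)) :
    (L d α ∩ convexHull ℝ ↑Y).Finite := by
  obtain ⟨C, hC⟩ := isBounded_iff_forall_norm_le.1 (Y.finite_toSet.isCompact_convexHull ℝ).isBounded
  obtain ⟨N, hN⟩ := pow_unbounded_of_one_lt C hα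
  refine (Set.Finite.pi' fun _ : Fin d => (Set.finite_Iio N).image (α ^ ·)).subset fun x hx k => ?_
  obtain ⟨n, hn⟩ := hx.1 k
  refine ⟨n, (pow_lt_pow_iff_right₀ hα).1 ?_, hn.symm⟩
  have := (norm_le_pi_norm x k).trans (hC x hx.2)
  linarith [le_abs_self (x k), Real.norm_eq_abs (x k)]

theorem hoffman (d : ℕ) (α : ℝ) (hα : 1 < α) : ∃ N, ∀ Y : Finset (Fin d → ℝ), ↑Y ⊆ L d α → N ≤ #Y →
    ∃ w ∈ L d α, ∀ y ∈ Y, w ∈ convexHull ℝ ((Y : Set (Fin d → ℝ)) \ {y}) := by
  classical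
  obtain ⟨N, hN⟩ := core d α hα
  refine ⟨N, fun Y => ?_⟩
  induction hc : (L d α ∩ convexHull ℝ ↑Y).ncard using Nat.strong_induction_on generalizing Y with
  | _ c ih =>
  intro hY hs
  by_contra ind
  push Not at ind
  have cp : ∀ y ∈ Y, y ∉ convexHull ℝ ((Y : Set (Fin d → ℝ)) \ {y}) := fun y hy z => by
    obtain ⟨x, hx, h⟩ := ind y (hY hy)
    by_cases e : y = x
    · exact h (e ▸ z)
    · exact h (subset_convexHull ℝ _ ⟨hy, e⟩)
  obtain ⟨z0, a0, b0⟩ := hN Y hY hs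
  obtain ⟨z, ⟨⟨z1, z2⟩, z3⟩, hz⟩ := Set.exists_max_image ((L d α ∩ convexHull ℝ ↑Y) \ ↑Y)
    (fun z => #{y ∈ Y | z ∈ convexHull ℝ ((Y : Set (Fin d → ℝ)) \ {y})})
    ((fin d α hα Y).subset Set.sdiff_subset)
    ⟨z0, ⟨a0, convexHull_mono Set.sdiff_subset b0⟩, fun h => cp z0 h b0⟩
  obtain ⟨j, hj, hzj⟩ := ind z z1
  have sub : (↑(insert z (Y.erase j)) : Set (Fin d → ℝ)) ⊆ convexHull ℝ ↑Y := by
    rw [coe_insert, Set.insert_subset_iff]
    exact ⟨z2, (coe_subset.2 (erase_subset _ _)).trans (subset_convexHull ℝ _)⟩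
  have sub' := convexHull_min sub (convex_convexHull ℝ _)
  obtain ⟨w, w1, w2⟩ := ih _ (hc ▸ Set.ncard_lt_ncard ⟨Set.inter_subset_inter_right _ sub', fun q =>
      ext Y j _ (cp j hj) sub (by simp; rintro rfl; exact z3 hj)
        (q ⟨hY hj, subset_convexHull ℝ _ hj⟩).2⟩ (fin d α hα Y)) (insert z (Y.erase j)) rfl
    (by rw [coe_insert, Set.insert_subset_iff]; exact ⟨z1, (coe_subset.2 (erase_subset _ _)).trans hY⟩)
    (by rw [card_insert_of_notMem fun q => z3 (mem_of_mem_erase q), card_erase_add_one hj]; exact hs)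
  have wj : w ∈ convexHull ℝ ((Y : Set (Fin d → ℝ)) \ {j}) :=
    convexHull_mono (fun x hx => by simp at hx ⊢; tauto) (w2 z (mem_insert_self _ _))
  have wY : w ∉ (Y : Set (Fin d → ℝ)) := fun q => by
    by_cases e : w = j
    · exact cp j hj (e ▸ wj)
    · exact ext Y w _ (cp w q) (Set.sdiff_subset.trans sub) (by simp)
        (w2 w (mem_insert_of_mem (mem_erase.2 ⟨e, q⟩)))
  refine absurd (hz w ⟨⟨w1, convexHull_mono Set.sdiff_subset wj⟩, wY⟩) (not_le.2 (card_lt_card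
    ⟨fun y hy => ?_, fun q => hzj (mem_filter.1 (q (mem_filter.2 ⟨hj, wj⟩))).2⟩))
  obtain ⟨y1, y2⟩ := mem_filter.1 hy
  refine mem_filter.2 ⟨y1, convexHull_min (fun x hx => ?_) (convex_convexHull ℝ _)
    (w2 y (mem_insert_of_mem (mem_erase.2 ⟨fun e => hzj (e ▸ y2), y1⟩)))⟩
  rcases mem_insert.1 hx.1 with rfl | q
  · exact y2
  · exact subset_convexHull ℝ _ ⟨mem_of_mem_erase q, hx.2⟩

theorem result (d : ℕ) (α : ℝ) (hα : 1 < α) : ∃ h : ℕ, ∀ F : Finset (Set (Fin d → ℝ)),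
    (∀ C ∈ F, Convex ℝ C) → (∀ G ⊆ F, #G ≤ h → ∃ x ∈ L d α, ∀ C ∈ G, x ∈ C) →
      ∃ x ∈ L d α, ∀ C ∈ F, x ∈ C := by
  classical
  obtain ⟨N, hN⟩ := hoffman d α hα
  refine ⟨N, fun F => ?_⟩
  induction F using Finset.strongInduction with
  | H F ih =>
  intro h1 h2
  by_cases c : #F ≤ N
  · exact h2 F Subset.rfl c
  by_contra no
  have : ∀ C, ∃ x, C ∈ F → x ∈ L d α ∧ ∀ D ∈ F.erase C, x ∈ D := fun C => by
    by_cases hC : C ∈ F
    · obtain ⟨x, hx⟩ := ih _ (erase_ssubset hC) (fun D hD => h1 D (mem_of_mem_erase hD))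
        fun G hG => h2 G (hG.trans (erase_subset _ _))
      exact ⟨x, fun _ => hx⟩
    · exact ⟨0, fun z => absurd z hC⟩
  choose x hx using this
  have nx : ∀ C ∈ F, x C ∉ C := fun C hC z => no ⟨x C, (hx C hC).1, fun D hD => by
    by_cases e : D = C
    · exact e ▸ z
    · exact (hx C hC).2 D (mem_erase.2 ⟨e, hD⟩)⟩
  obtain ⟨w, w1, w2⟩ := hN (F.image x) (fun y hy => by
      obtain ⟨C, hC, rfl⟩ := mem_image.1 hy
      exact (hx C hC).1) (by
      rw [card_image_of_injOn fun C hC D hD e => by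
        by_contra z
        exact nx C hC (e ▸ (hx D hD).2 C (mem_erase.2 ⟨z, hC⟩))]
      omega)
  refine no ⟨w, w1, fun C hC => convexHull_min (fun y hy => ?_) (h1 C hC) (w2 _ (mem_image_of_mem x hC))⟩
  obtain ⟨D, hD, rfl⟩ := mem_image.1 hy.1
  exact (hx D hD).2 C (mem_erase.2 ⟨fun e => hy.2 (by simp [e]), hC⟩)

end Pool.Agent.Results.MP_a46e5c_co.Finite
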